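import Pool.Agent.THX.Stmts

namespace Pool.Agent.Helper13_THX

open Pool.Agent.THX

theorem bdv : BdvStmt := by
  intro r Q
  refine ⟨∑ m ∈ Q.support, ‖((Q.coeff m : ℤ) : ℂ)‖, ?_⟩
  intro R X hR hX
  have h0 : (0 : ℝ) ≤ R := le_trans zero_le_one hR
  rw [MvPolynomial.aeval_def, MvPolynomial.eval₂_eq, Finset.sum_mul]
  refine le_trans (norm_sum_le _ _) (Finset.sum_le_sum ?_)
  intro m hm
  rw [norm_mul]
  have h1 : ‖(algebraMap ℤ ℂ) (Q.coeff m)‖ = ‖((Q.coeff m : ℤ) : ℂ)‖ := by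
    simp
  rw [h1]
  refine mul_le_mul_of_nonneg_left ?_ (norm_nonneg _)
  rw [norm_prod]
  have h2 : ∏ i ∈ m.support, ‖X i ^ m i‖ ≤ ∏ i ∈ m.support, R ^ m i := by
    refine Finset.prod_le_prod (fun i _ => norm_nonneg _) ?_
    intro i _
    rw [norm_pow]
    exact pow_le_pow_left₀ (norm_nonneg _) (hX i) _
  refine le_trans h2 ?_
  rw [Finset.prod_pow_eq_pow_sum]
  exact pow_le_pow_right₀ hR (MvPolynomial.le_totalDegree hm)

end Pool.Agent.Helper13_THX
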